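import Pool.Agent.H88.CR.Targets

/-!
Row SCF of `cvr_modules`: the scalar field is reflexive, locally uniformly convex and weakly
uniformly convex.
-/

set_option autoImplicit false

open Filter Topology Set

namespace Pool.Agent.H4.CR

open Pool.Agent.H85.WMP Pool.Agent.H88.WR Pool.Agent.H88.CR

variable (𝕜 : Type) [RCLike 𝕜]

/-- the parallelogram law -/
theorem scf_par (x y : 𝕜) : ‖x + y‖ ^ 2 + ‖x - y‖ ^ 2 = 2 * ‖x‖ ^ 2 + 2 * ‖y‖ ^ 2 := by
  have h := parallelogram_law_with_norm_mul 𝕜 x y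
  nlinarith [h]

/-- SCF -/
theorem pf_SCF : T_SCF 𝕜 := by
  refine ⟨?_, ?_, ?_⟩
  · intro Φ
    refine ⟨Φ (ContinuousLinearMap.id 𝕜 𝕜), ?_⟩
    ext f
    have hf : f = (f 1) • (ContinuousLinearMap.id 𝕜 𝕜 : 𝕜 →L[𝕜] 𝕜) := by
      ext
      simp
    rw [NormedSpace.dual_def]
    have h2 : Φ f = f 1 * Φ (ContinuousLinearMap.id 𝕜 𝕜) := by
      conv_lhs => rw [hf]
      rw [map_smul, smul_eq_mul]
    have h3 : f (Φ (ContinuousLinearMap.id 𝕜 𝕜)) =
        f 1 * Φ (ContinuousLinearMap.id 𝕜 𝕜) := by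
      have h4 : f (Φ (ContinuousLinearMap.id 𝕜 𝕜) • (1 : 𝕜)) =
          Φ (ContinuousLinearMap.id 𝕜 𝕜) • f 1 := map_smul f _ _
      rw [smul_eq_mul, mul_one, smul_eq_mul] at h4
      rw [h4, mul_comm]
    rw [h2, h3]
  · intro x hx ε hε
    refine ⟨min 1 (ε ^ 2 / 4), by positivity, ?_⟩
    intro y hy hxy
    have h := scf_par 𝕜 x y
    rw [hx, hy] at h
    have h1 : ε ^ 2 ≤ ‖x - y‖ ^ 2 := by
      exact pow_le_pow_left₀ hε.le hxy 2
    have h2 : min 1 (ε ^ 2 / 4) ≤ 1 := min_le_left _ _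
    have h3 : min 1 (ε ^ 2 / 4) ≤ ε ^ 2 / 4 := min_le_right _ _
    have h4 : 0 < min 1 (ε ^ 2 / 4) := by positivity
    set δ := min 1 (ε ^ 2 / 4)
    by_contra hc
    push Not at hc
    have h5 : (2 - δ) ^ 2 < ‖x + y‖ ^ 2 := by
      apply pow_lt_pow_left₀ hc (by linarith) (by norm_num)
    nlinarith
  · intro x y hx hy hlim φ
    have h1 : Tendsto (fun n => ‖x n - y n‖ ^ 2) atTop (𝓝 0) := by
      have h2 : Tendsto (fun n => 4 - ‖x n + y n‖ ^ 2) atTop (𝓝 (4 - 2 ^ 2)) :=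
        tendsto_const_nhds.sub (hlim.pow 2)
      have h3 : (fun n => ‖x n - y n‖ ^ 2) = fun n => 4 - ‖x n + y n‖ ^ 2 := by
        funext n
        have h := scf_par 𝕜 (x n) (y n)
        rw [hx n, hy n] at h
        linarith
      rw [h3]
      have h4 : (4 : ℝ) - 2 ^ 2 = 0 := by norm_num
      rw [h4] at h2
      exact h2
    have h2 : Tendsto (fun n => ‖x n - y n‖) atTop (𝓝 0) := by
      have h3 := h1.sqrt
      rw [Real.sqrt_zero] at h3
      refine h3.congr ?_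
      intro n
      exact Real.sqrt_sq (norm_nonneg _)
    have h3 : Tendsto (fun n => x n - y n) atTop (𝓝 0) := tendsto_zero_iff_norm_tendsto_zero.2 h2
    have h4 := (φ.continuous.tendsto 0).comp h3
    rw [map_zero] at h4
    exact h4

end Pool.Agent.H4.CR
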